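import Pool.Agent.W_MP_6cb7ce_lc_h1.Phi
import Pool.Agent.W_3b51b4_h32.Final

/-!
Under Martin's axiom for `ℵ₁` dense sets there is an untranscendable order type `φ` which is
equimorphic to `φ 2` and to `2 φ`, but not to `φ ^ 2`; and there is a countable well-founded model of
`ZFC` and Martin's axiom for `ℵ₁` dense sets.
-/

namespace Pool.Agent.Results.MP_6cb7ce_lc.ConsistentYes

open Pool.Agent.W_MP_6cb7ce_lc_h1

/-- `X ≤ Y`: there is an order preserving injection. -/
def Emb (X Y : Type) [LinearOrder X] [LinearOrder Y] : Prop := ∃ f : X → Y, StrictMono f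

/-- `X` and `Y` are equimorphic. -/
def Equimorphic (X Y : Type) [LinearOrder X] [LinearOrder Y] : Prop := Emb X Y ∧ Emb Y X

/-- The product `A B`: `B` copies of `A`, that is, `A × B` with `(a, b) < (a', b')` if and only if
`b < b'`, or `b = b'` and `a < a'`. The second coordinate is written first here. -/
abbrev OMul (A B : Type) : Type := B ×ₗ A

/-- A linear order `X` is untranscendable if for all suborders `A`, `B` of `X` with `X ≤ A B`,
`X ≤ A` or `X ≤ B`. -/
def Untranscendable (X : Type) [LinearOrder X] : Prop :=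
  ∀ A B : Set X, Emb X (OMul A B) → Emb X A ∨ Emb X B

theorem yes_of_MA (hMA : MartinsAxiomAlephOne) :
    ∃ (φ : Type) (_ : LinearOrder φ), Untranscendable φ ∧ Equimorphic φ (OMul φ (Fin 2)) ∧
      Equimorphic φ (OMul (Fin 2) φ) ∧ ¬ Equimorphic φ (OMul φ φ) := by
  obtain ⟨e, he1, he2⟩ := exists_coherent (W := W1)
  let c : Coh W1 := ⟨e, he1, he2⟩
  have hL := line_L hMA c
  have hF := fib_Phi c
  refine ⟨Phi c, inferInstance, ?_, ⟨⟨fun x => toLex (0, x), ?_⟩, ?_⟩,
    ⟨⟨fun x => toLex (x, 0), ?_⟩, ?_⟩, ?_⟩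
  · rintro A B ⟨f, hf⟩
    rcases untrans hL kap_mono kap_ge hF A B (OrderEmbedding.ofStrictMono f hf) with h | h
    · obtain ⟨g⟩ := h
      exact Or.inl ⟨g, g.strictMono⟩
    · obtain ⟨g⟩ := h
      exact Or.inr ⟨g, g.strictMono⟩
  · intro x y h
    exact Prod.Lex.lt_iff.mpr (Or.inr ⟨rfl, h⟩)
  · obtain ⟨g⟩ := two_copies hL kap_mono kap_ge hF
    exact ⟨g, g.strictMono⟩
  · intro x y h
    exact Prod.Lex.lt_iff.mpr (Or.inl h)
  · obtain ⟨g⟩ := double_points hL kap_mono kap_ge hF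
    exact ⟨g, g.strictMono⟩
  · rintro ⟨-, f, hf⟩
    exact no_square hL kap_ge kap_gt hF (OrderEmbedding.ofStrictMono f hf)

/-- `MA_{ℵ₁}` implies that Q1 has the answer yes, and there is a countable well-founded model of `ZFC`
and `MA_{ℵ₁}`. -/
theorem result :
    (MartinsAxiomAlephOne → ∃ (φ : Type) (_ : LinearOrder φ), Untranscendable φ ∧
      Equimorphic φ (OMul φ (Fin 2)) ∧ Equimorphic φ (OMul (Fin 2) φ) ∧
      ¬ Equimorphic φ (OMul φ φ)) ∧
    ∃ (M : Type 1) (E : M → M → Prop), Countable M ∧ WellFounded E ∧ HESR.IsZFC E ∧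
      MAO.MA1 E := by
  refine ⟨yes_of_MA, ?_⟩
  obtain ⟨M, E, h1, h2, h3, h4, _⟩ := MOF.exists_model
  exact ⟨M, E, h1, h2, h3, h4⟩

end Pool.Agent.Results.MP_6cb7ce_lc.ConsistentYes
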