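import Pool.Agent.W_6cb7ce_h1b.Fin

/-!
The structure of an untranscendable order type `φ` which is equimorphic to `φ 2` and to `2 φ` but
not to `φ ^ 2`.
-/

set_option autoImplicit false

namespace Pool.Agent.Results.MP_6cb7ce_lc.CounterexampleStructure

open Pool.Agent.W_6cb7ce_h1b Cardinal

universe u v

/-- `X ≤ Y`: there is an order preserving injection. -/
def Emb (X : Type u) (Y : Type v) [LinearOrder X] [LinearOrder Y] : Prop :=
  ∃ f : X → Y, StrictMono f

/-- `X` and `Y` are equimorphic. -/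
def Equimorphic (X : Type u) (Y : Type v) [LinearOrder X] [LinearOrder Y] : Prop :=
  Emb X Y ∧ Emb Y X

/-- The product `A B`: `B` copies of `A`, that is, `A × B` with `(a, b) < (a', b')` if and only if
`b < b'`, or `b = b'` and `a < a'`. The second coordinate is written first here. -/
abbrev OMul (A : Type u) (B : Type v) : Type (max u v) := B ×ₗ A

/-- A linear order `X` is untranscendable if for all suborders `A`, `B` of `X` with `X ≤ A B`,
`X ≤ A` or `X ≤ B`. -/
def Untranscendable (X : Type u) [LinearOrder X] : Prop :=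
  ∀ A B : Set X, Emb X (OMul A B) → Emb X A ∨ Emb X B

/-- All fibres of `π` over points of `E` embed in one suborder of `φ` in which `φ` does not
embed. -/
def Bounded {φ : Type u} [LinearOrder φ] (π : φ → φ) (E : Set φ) : Prop :=
  ∃ A : Set φ, ¬ Emb φ A ∧ ∀ q ∈ E, Emb (π ⁻¹' {q}) A

theorem result (φ : Type u) [LinearOrder φ] (hU : Untranscendable φ)
    (h1 : Equimorphic φ (OMul φ (Fin 2))) (h2 : Equimorphic φ (OMul (Fin 2) φ))
    (hn : ¬ Equimorphic φ (OMul φ φ)) :
    ∃ (π : φ → φ) (C : Set φ), Monotone π ∧ (∀ x, π x ∈ C) ∧ (∀ x ∈ C, π x = x) ∧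
      DenselyOrdered C ∧ ¬ Emb φ C ∧
      (∀ p ∈ C, ¬ Emb φ (π ⁻¹' {p})) ∧
      (∀ p ∈ C, ∀ q ∈ C, p < q → Emb φ (Set.Icc p q)) ∧
      ¬ Bounded π C ∧
      (∀ E : ℕ → Set φ, (∀ n, Bounded π (E n)) → Bounded π (⋃ n, E n)) ∧
      (∀ E : Set φ, #E < #C → Bounded π E) ∧
      (∀ E ⊆ C, ¬ Bounded π E → Emb C E ∧ Emb φ (π ⁻¹' E)) ∧
      ℵ₀ < (#C).ord.cof ∧ #C < #(C ↪o C) ∧
      ∀ (J : Type u) [LinearOrder J] (lo hi : J → C), (∀ j, lo j < hi j) →
        (∀ j j', j < j' → hi j ≤ lo j') → (#C).ord.cof ≤ #J → Emb C J := by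
  rcases isEmpty_or_nonempty φ with he | ⟨⟨x0⟩⟩
  · exact absurd ⟨⟨fun x => (he.false x).elim, fun x => (he.false x).elim⟩,
      ⟨fun x => (he.false (ofLex x).1).elim, fun x => (he.false (ofLex x).1).elim⟩⟩ hn
  obtain ⟨D⟩ := dbl_of x0 h1.2 h2.2
  have hR : Sm (conv D).R := by
    rcases square_or D with h | hR
    · exact absurd ⟨emb_square x0, h⟩ hn
    · exact hR
  have hB : ∀ E : Set φ, Bounded (conv D).rep E ↔ Bd D E := by
    intro E
    constructor
    · rintro ⟨A, hA, hA'⟩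
      exact ⟨A, fun h => hA (embOn_univ_iff.1 h), fun q hq => embOn_iff.2 (hA' q hq)⟩
    · rintro ⟨A, hA, hA'⟩
      exact ⟨A, fun h => hA (embOn_univ_iff.2 h), fun q hq => embOn_iff.1 (hA' q hq)⟩
  refine ⟨(conv D).rep, (conv D).R, (conv D).rep_mono, (conv D).rep_mem, fun x hx => hx,
    R_dense D, fun h => hR (embOn_univ_iff.2 h), fun p _ h => sm_Cl D p (embOn_univ_iff.2 h),
    ?_, ?_, ?_, ?_, ?_, aleph0_lt_nu D hU hR, many_emb D hU hR, ?_⟩
  · intro p hp q hq hpq
    have hp1 : (conv D).rep p = p := hp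
    have hq1 : (conv D).rep q = q := hq
    refine embOn_univ_iff.1 (big_Icc D hpq ?_)
    rw [hp1, hq1]
    exact hpq.ne
  · rw [hB]
    exact not_bd_R D hU hR
  · intro E hE
    rw [hB]
    exact bd_iUnion D E fun n => (hB _).1 (hE n)
  · intro E hE
    rw [hB]
    exact bd_of_lt D hE
  · intro E _ hE'
    rw [hB] at hE'
    refine ⟨embOn_iff.1 (emb_of_not_bd D hE'), ?_⟩
    by_contra hcon
    refine hE' ⟨(conv D).rep ⁻¹' E, fun h => hcon (embOn_univ_iff.1 h), fun q hq =>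
      EmbOn.of_subset ?_⟩
    intro y hy
    have hy' : (conv D).rep y = q := hy
    show (conv D).rep y ∈ E
    rw [hy']
    exact hq
  · intro J _ lo hi hlo hdisj hJ
    refine emb_index D hU hR lo hi hlo hdisj ?_
    rw [Cardinal.lift_id, Cardinal.lift_id]
    exact hJ

end Pool.Agent.Results.MP_6cb7ce_lc.CounterexampleStructure
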