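import Pool.Agent.W_6cb7ce_h1b.Fin

/-!
Every `σ`-scattered untranscendable order type `φ` which is equimorphic to `φ 2` and to `2 φ` is
equimorphic to `φ ^ 2`.
-/

set_option autoImplicit false

namespace Pool.Agent.Results.MP_6cb7ce_lc.SigmaScattered

open Pool.Agent.W_6cb7ce_h1b

universe u v

/-- `X ≤ Y`: there is an order preserving injection. -/
def Emb (X : Type u) (Y : Type v) [LinearOrder X] [LinearOrder Y] : Prop :=
  ∃ f : X → Y, StrictMono f

/-- `X` and `Y` are equimorphic. -/
def Equimorphic (X : Type u) (Y : Type v) [LinearOrder X] [LinearOrder Y] : Prop :=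
  Emb X Y ∧ Emb Y X

/-- The product `A B`: `B` copies of `A`, that is, `A × B` with `(a, b) < (a', b')` if and only if
`b < b'`, or `b = b'` and `a < a'`. The second coordinate is written first here. -/
abbrev OMul (A : Type u) (B : Type v) : Type (max u v) := B ×ₗ A

/-- A linear order `X` is untranscendable if for all suborders `A`, `B` of `X` with `X ≤ A B`,
`X ≤ A` or `X ≤ B`. -/
def Untranscendable (X : Type u) [LinearOrder X] : Prop :=
  ∀ A B : Set X, Emb X (OMul A B) → Emb X A ∨ Emb X B

/-- `X` is `σ`-scattered: a union of countably many suborders which do not contain a copy of the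
rationals. -/
def IsSigmaScattered (X : Type u) [LinearOrder X] : Prop :=
  ∃ S : ℕ → Set X, (⋃ n, S n) = Set.univ ∧ ∀ n, ¬ Emb ℚ (S n)

theorem result (φ : Type u) [LinearOrder φ] (hU : Untranscendable φ)
    (h1 : Equimorphic φ (OMul φ (Fin 2))) (h2 : Equimorphic φ (OMul (Fin 2) φ))
    (hs : IsSigmaScattered φ) : Equimorphic φ (OMul φ φ) := by
  rcases isEmpty_or_nonempty φ with he | ⟨⟨x0⟩⟩
  · exact ⟨⟨fun x => (he.false x).elim, fun x => (he.false x).elim⟩,
      ⟨fun x => (he.false (ofLex x).1).elim, fun x => (he.false (ofLex x).1).elim⟩⟩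
  refine ⟨emb_square x0, ?_⟩
  obtain ⟨D⟩ := dbl_of x0 h1.2 h2.2
  rcases square_or D with h | hR
  · exact h
  · exfalso
    obtain ⟨S, hS, hS'⟩ := hs
    obtain ⟨n, hn⟩ := scattered D hU hR S hS
    exact hS' n hn

end Pool.Agent.Results.MP_6cb7ce_lc.SigmaScattered
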